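import Pool.Agent.Y748.SR.Stm2

/-! The one point correlation of a sequence of density one. -/

open Finset Filter Topology MeasureTheory

set_option autoImplicit false
set_option linter.unusedSectionVars false

namespace Pool.Agent.Y51.SR

open Pool.Agent.Y748.SR

/-- the counting functions -/
noncomputable def cle (u : ℕ → ℝ) (y : ℝ) : ℝ := ({n : ℕ | 1 ≤ n ∧ u n ≤ y}.ncard : ℝ)

noncomputable def clt (u : ℕ → ℝ) (y : ℝ) : ℝ := ({n : ℕ | 1 ≤ n ∧ u n < y}.ncard : ℝ)

section

variable {u : ℕ → ℝ} (hu : Sq u)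

include hu

lemma ev_le {ε : ℝ} (hε : 0 < ε) : ∃ n₀ : ℕ, 1 ≤ n₀ ∧ ∀ n, n₀ ≤ n →
    (1 - ε) * n ≤ u n ∧ u n ≤ (1 + ε) * n := by
  have h1 : ∀ᶠ n : ℕ in atTop, 1 - ε < u n / n := hu.lim.eventually_const_lt (by linarith)
  have h2 : ∀ᶠ n : ℕ in atTop, u n / n < 1 + ε := hu.lim.eventually_lt_const (by linarith)
  obtain ⟨n₀, hn₀⟩ := (h1.and (h2.and (eventually_ge_atTop 1))).exists_forall_of_atTop
  refine ⟨max n₀ 1, le_max_right _ _, fun n hn => ?_⟩
  obtain ⟨k1, k2, k3⟩ := hn₀ n (le_trans (le_max_left _ _) hn)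
  have hn0 : (0 : ℝ) < n := by exact_mod_cast k3
  rw [lt_div_iff₀ hn0] at k1
  rw [div_lt_iff₀ hn0] at k2
  exact ⟨k1.le, k2.le⟩

lemma fin_le (y : ℝ) : {n : ℕ | 1 ≤ n ∧ u n ≤ y}.Finite := by
  obtain ⟨n₀, hn₀, h⟩ := ev_le hu (ε := 1 / 2) (by norm_num)
  apply (Set.finite_Iic (max n₀ ⌊2 * y⌋₊)).subset
  rintro n ⟨-, hn⟩
  rw [Set.mem_Iic]
  by_cases hn0 : n ≤ n₀
  · exact hn0.trans (le_max_left _ _)
  · have h1 := (h n (by omega)).1
    have h2 : (n : ℝ) ≤ 2 * y := by linarith
    exact (Nat.le_floor h2).trans (le_max_right _ _)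

lemma fin_lt (y : ℝ) : {n : ℕ | 1 ≤ n ∧ u n < y}.Finite :=
  (fin_le hu y).subset fun _ h => ⟨h.1, h.2.le⟩

lemma cle_mono : Monotone (cle u) := by
  intro x y hxy
  have hs : {n : ℕ | 1 ≤ n ∧ u n ≤ x} ⊆ {n : ℕ | 1 ≤ n ∧ u n ≤ y} :=
    fun n h => ⟨h.1, h.2.trans hxy⟩
  unfold cle
  exact_mod_cast Set.ncard_le_ncard hs (fin_le hu y)

lemma clt_mono : Monotone (clt u) := by
  intro x y hxy
  have hs : {n : ℕ | 1 ≤ n ∧ u n < x} ⊆ {n : ℕ | 1 ≤ n ∧ u n < y} :=
    fun n h => ⟨h.1, lt_of_lt_of_le h.2 hxy⟩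
  unfold clt
  exact_mod_cast Set.ncard_le_ncard hs (fin_lt hu y)

lemma mono_le {m n : ℕ} (hm : 1 ≤ m) (hmn : m ≤ n) : u m ≤ u n := by
  induction n, hmn using Nat.le_induction with
  | base => exact le_rfl
  | succ k hk ih => exact ih.trans (hu.mono k (hm.trans hk))

/-- the counting function is asymptotic to the identity -/
lemma cle_lim : Tendsto (fun y : ℝ => cle u y / y) atTop (𝓝 1) := by
  rw [Metric.tendsto_nhds]
  intro ε hε
  obtain ⟨δ, hδ, hδ1, hδε⟩ : ∃ δ : ℝ, 0 < δ ∧ δ < 1 / 2 ∧ 4 * δ < ε := by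
    refine ⟨min (1 / 4) (ε / 8), by positivity, ?_, ?_⟩
    · exact lt_of_le_of_lt (min_le_left _ _) (by norm_num)
    · have := min_le_right (1 / 4) (ε / 8)
      linarith
  obtain ⟨n₀, hn₀, h⟩ := ev_le hu hδ
  filter_upwards [eventually_gt_atTop (max ((1 + δ) * (n₀ + 1)) (2 * (1 / δ) + 2))] with y hy
  have hy1 : (1 + δ) * (n₀ + 1) < y := lt_of_le_of_lt (le_max_left _ _) hy
  have hy2 : 2 * (1 / δ) + 2 < y := lt_of_le_of_lt (le_max_right _ _) hy
  have hy0 : 0 < y := by
    have : 0 < 1 / δ := by positivity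
    linarith
  -- upper bound
  have hup : cle u y ≤ y / (1 - δ) := by
    have hsub : {n : ℕ | 1 ≤ n ∧ u n ≤ y} ⊆ ↑(Finset.Icc 1 ⌊y / (1 - δ)⌋₊) := by
      rintro n ⟨hn1, hn⟩
      rw [Finset.coe_Icc, Set.mem_Icc]
      refine ⟨hn1, Nat.le_floor ?_⟩
      rw [le_div_iff₀ (by linarith)]
      by_cases hn0 : n₀ ≤ n
      · have := (h n hn0).1
        linarith
      · have h1 : (n : ℝ) ≤ n₀ := by
          exact_mod_cast (by omega : n ≤ n₀)
        have h2 : (0 : ℝ) ≤ n := Nat.cast_nonneg n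
        nlinarith
    have h1 := Set.ncard_le_ncard hsub (Finset.finite_toSet _)
    rw [Set.ncard_coe_finset, Nat.card_Icc, Nat.add_sub_cancel] at h1
    have h2 : (cle u y) ≤ (⌊y / (1 - δ)⌋₊ : ℝ) := by
      unfold cle
      exact_mod_cast h1
    exact h2.trans (Nat.floor_le (by
      apply div_nonneg hy0.le
      linarith))
  -- lower bound
  have hlo : y / (1 + δ) - 1 ≤ cle u y := by
    have hsub : (↑(Finset.Icc 1 ⌊y / (1 + δ)⌋₊) : Set ℕ) ⊆ {n : ℕ | 1 ≤ n ∧ u n ≤ y} := by
      intro n hn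
      rw [Finset.coe_Icc, Set.mem_Icc] at hn
      refine ⟨hn.1, ?_⟩
      have h1 : (n : ℝ) ≤ y / (1 + δ) := by
        have := Nat.floor_le (show 0 ≤ y / (1 + δ) by positivity)
        refine le_trans ?_ this
        exact_mod_cast hn.2
      rw [le_div_iff₀ (by linarith)] at h1
      by_cases hn0 : n₀ ≤ n
      · have := (h n hn0).2
        linarith
      · have h2 := mono_le hu hn.1 (by omega : n ≤ n₀)
        have h3 := (h n₀ le_rfl).2
        nlinarith
    have h1 := Set.ncard_le_ncard hsub (fin_le hu y)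
    rw [Set.ncard_coe_finset, Nat.card_Icc, Nat.add_sub_cancel] at h1
    have h2 : (⌊y / (1 + δ)⌋₊ : ℝ) ≤ cle u y := by
      unfold cle
      exact_mod_cast h1
    linarith [Nat.lt_floor_add_one (y / (1 + δ))]
  rw [Real.dist_eq, abs_lt]
  have hδy : 1 / y < δ := by
    rw [div_lt_iff₀ hy0]
    have h1 : 1 / δ < y := by
      have : 0 < 1 / δ := by positivity
      linarith
    rw [div_lt_iff₀ hδ] at h1
    linarith
  constructor
  · have h1 : (y / (1 + δ) - 1) / y ≤ cle u y / y := by gcongr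
    have h2 : (y / (1 + δ) - 1) / y = 1 / (1 + δ) - 1 / y := by
      field_simp
    have h3 : 1 - δ ≤ 1 / (1 + δ) := by
      rw [le_div_iff₀ (by linarith)]
      nlinarith
    rw [h2] at h1
    linarith
  · have h1 : cle u y / y ≤ (y / (1 - δ)) / y := by gcongr
    have h2 : (y / (1 - δ)) / y = 1 / (1 - δ) := by
      field_simp
    have h3 : 1 / (1 - δ) ≤ 1 + 2 * δ := by
      rw [div_le_iff₀ (by linarith)]
      nlinarith
    rw [h2] at h1
    linarith

/-- the two counting functions agree almost everywhere -/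
lemma ae_eq : clt u =ᵐ[volume] cle u := by
  have hc : (Set.range u).Countable := Set.countable_range u
  have h0 : ∀ᵐ y ∂(volume : Measure ℝ), y ∉ Set.range u := by
    rw [ae_iff]
    simp only [not_not]
    exact hc.measure_zero volume
  filter_upwards [h0] with y hy
  unfold clt cle
  congr 2
  ext n
  simp only [Set.mem_ofPred_eq]
  constructor
  · rintro ⟨h1, h2⟩
    exact ⟨h1, h2.le⟩
  · rintro ⟨h1, h2⟩
    exact ⟨h1, lt_of_le_of_ne h2 fun h => hy ⟨n, h⟩⟩

/-- the count of the one point correlation -/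
lemma count_eq {a b : ℝ} (hab : a ≤ b) (x : ℝ) :
    ({n : Fin 1 → ℕ | Function.Injective n ∧
      ∀ i, 1 ≤ n i ∧ u (n i) - x ∈ Set.Icc ((fun _ : Fin 1 => a) i) ((fun _ : Fin 1 => b) i)}.ncard
        : ℝ) = cle u (x + b) - clt u (x + a) := by
  have h1 : {n : Fin 1 → ℕ | Function.Injective n ∧
      ∀ i, 1 ≤ n i ∧ u (n i) - x ∈ Set.Icc ((fun _ : Fin 1 => a) i) ((fun _ : Fin 1 => b) i)} =
      (fun (m : ℕ) (_ : Fin 1) => m) '' ({n : ℕ | 1 ≤ n ∧ u n ≤ x + b} \
        {n : ℕ | 1 ≤ n ∧ u n < x + a}) := by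
    ext n
    simp only [Set.mem_ofPred_eq, Set.mem_image, Set.mem_sdiff, Set.mem_Icc, not_and, not_lt]
    constructor
    · rintro ⟨-, h⟩
      obtain ⟨k1, k2, k3⟩ := h 0
      refine ⟨n 0, ⟨⟨k1, by linarith⟩, fun _ => by linarith⟩, ?_⟩
      funext i
      rw [Subsingleton.elim i 0]
    · rintro ⟨m, ⟨⟨k1, k2⟩, k3⟩, rfl⟩
      exact ⟨Function.injective_of_subsingleton _,
        fun _ => ⟨k1, by linarith [k3 k1], by linarith⟩⟩
  have hsub : {n : ℕ | 1 ≤ n ∧ u n < x + a} ⊆ {n : ℕ | 1 ≤ n ∧ u n ≤ x + b} := by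
    rintro n ⟨k1, k2⟩
    exact ⟨k1, by linarith⟩
  rw [h1, Set.ncard_image_of_injective _ (fun m m' h => congrFun h 0),
    Set.ncard_sdiff hsub (fin_lt hu _)]
  unfold cle clt
  rw [Nat.cast_sub (Set.ncard_le_ncard hsub (fin_le hu _))]

lemma corr_eq {a b : ℝ} (hab : a ≤ b) (N : ℕ) :
    corr u 1 N (fun _ => a) (fun _ => b) =
      (1 / N : ℝ) * ((∫ x in (N + a)..(N + b), cle u x) - ∫ x in a..b, cle u x) := by
  unfold corr
  congr 1
  rw [intervalIntegral.integral_congr (g := fun x => cle u (x + b) - clt u (x + a))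
    (fun x _ => count_eq hu hab x)]
  have hi1 : ∀ c d : ℝ, IntervalIntegrable (cle u) volume c d := fun c d =>
    (cle_mono hu).intervalIntegrable
  have hi2 : ∀ c d : ℝ, IntervalIntegrable (clt u) volume c d := fun c d =>
    (clt_mono hu).intervalIntegrable
  have hm1 : Monotone fun x => cle u (x + b) := fun x y h => cle_mono hu (by linarith)
  have hm2 : Monotone fun x => clt u (x + a) := fun x y h => clt_mono hu (by linarith)
  rw [intervalIntegral.integral_sub hm1.intervalIntegrable hm2.intervalIntegrable,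
    intervalIntegral.integral_comp_add_right (fun x => cle u x) b,
    intervalIntegral.integral_comp_add_right (fun x => clt u x) a]
  have h2 : ∫ x in (0 + a)..(N + a), clt u x = ∫ x in (0 + a)..(N + a), cle u x :=
    intervalIntegral.integral_congr_ae (by
      filter_upwards [ae_eq hu] with x hx _
      exact hx)
  rw [h2, zero_add, zero_add]
  have h3 := intervalIntegral.integral_add_adjacent_intervals (hi1 a b) (hi1 b (N + b))
  have h4 := intervalIntegral.integral_add_adjacent_intervals (hi1 a (N + a)) (hi1 (N + a) (N + b))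
  linarith

lemma onep_nat {a b : ℝ} (hab : a ≤ b) :
    Tendsto (fun N : ℕ => corr u 1 N (fun _ => a) (fun _ => b)) atTop (𝓝 (b - a)) := by
  have hN : Tendsto (fun N : ℕ => (1 / N : ℝ)) atTop (𝓝 0) := tendsto_one_div_atTop_nhds_zero_nat
  -- the counting function near N
  have hc : ∀ c : ℝ, Tendsto (fun N : ℕ => (1 / N : ℝ) * (cle u (N + c) * (b - a))) atTop
      (𝓝 (b - a)) := by
    intro c
    have h1 : Tendsto (fun N : ℕ => (N : ℝ) + c) atTop atTop :=
      tendsto_atTop_add_const_right _ _ tendsto_natCast_atTop_atTop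
    have h2 := (cle_lim hu).comp h1
    have h3 : Tendsto (fun N : ℕ => ((N : ℝ) + c) * (1 / N)) atTop (𝓝 1) := by
      have h4 : Tendsto (fun N : ℕ => 1 + c * (1 / N : ℝ)) atTop (𝓝 (1 + c * 0)) :=
        tendsto_const_nhds.add (hN.const_mul c)
      rw [mul_zero, add_zero] at h4
      refine h4.congr' ?_
      filter_upwards [eventually_gt_atTop 0] with N hN0
      have : (N : ℝ) ≠ 0 := by exact_mod_cast hN0.ne'
      field_simp
    have h5 := (h2.mul h3).mul_const (b - a)
    rw [one_mul, one_mul] at h5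
    refine h5.congr' ?_
    filter_upwards [h1.eventually_gt_atTop 0] with N hN0
    simp only [Function.comp]
    field_simp
  have hI : Tendsto (fun N : ℕ => (1 / N : ℝ) * ∫ x in (N + a)..(N + b), cle u x) atTop
      (𝓝 (b - a)) := by
    refine tendsto_of_tendsto_of_tendsto_of_le_of_le (hc a) (hc b) ?_ ?_
    · intro N
      have h1 : (∫ _ in ((N : ℝ) + a)..(N + b), cle u (N + a)) ≤ ∫ x in (N + a)..(N + b), cle u x :=
        intervalIntegral.integral_mono_on (by linarith) intervalIntegrable_const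
          (cle_mono hu).intervalIntegrable (fun x hx => cle_mono hu hx.1)
      rw [intervalIntegral.integral_const, smul_eq_mul] at h1
      have h2 : ((N : ℝ) + b - (N + a)) * cle u (N + a) = cle u (N + a) * (b - a) := by ring
      rw [h2] at h1
      exact mul_le_mul_of_nonneg_left h1 (by positivity)
    · intro N
      have h1 : ∫ x in (N + a)..(N + b), cle u x ≤ ∫ _ in ((N : ℝ) + a)..(N + b), cle u (N + b) :=
        intervalIntegral.integral_mono_on (by linarith) (cle_mono hu).intervalIntegrable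
          intervalIntegrable_const (fun x hx => cle_mono hu hx.2)
      rw [intervalIntegral.integral_const, smul_eq_mul] at h1
      have h2 : ((N : ℝ) + b - (N + a)) * cle u (N + b) = cle u (N + b) * (b - a) := by ring
      rw [h2] at h1
      exact mul_le_mul_of_nonneg_left h1 (by positivity)
  have hfin := hI.sub (hN.mul_const (∫ x in a..b, cle u x))
  rw [zero_mul, sub_zero] at hfin
  refine hfin.congr fun N => ?_
  rw [corr_eq hu hab, mul_sub]

end

theorem t_ONEP : S_ONEP := by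
  intro u hu I l N hN a b hab
  exact (onep_nat hu hab).comp hN

end Pool.Agent.Y51.SR
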