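import Pool.Agent.Y748.SR.Stm2

/-! Positive definiteness with repeated points. -/

open Finset Filter Topology MeasureTheory

set_option autoImplicit false

namespace Pool.Agent.Y51.SR

open Pool.Agent.Y748.SR

/-- the form on an injective family -/
lemma on_family {g : ℝ → ℝ} (H : ∀ (Y : Finset ℝ) (c : ℝ → ℝ),
    0 ≤ ∑ i ∈ Y, c i ^ 2 + ∑ i ∈ Y, ∑ j ∈ Y.erase i, g (i - j) * (c i * c j))
    {ι : Type} [Fintype ι] [DecidableEq ι] (P : ι → ℝ) (hP : Function.Injective P) (w : ι → ℝ) :
    0 ≤ ∑ p, w p ^ 2 + ∑ p, ∑ q ∈ univ.erase p, g (P p - P q) * (w p * w q) := by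
  classical
  have h := H (univ.image P) (Function.extend P w 0)
  rw [sum_image hP.injOn, sum_image hP.injOn] at h
  simp only [hP.extend_apply] at h
  have h2 : ∀ p : ι, (univ.image P).erase (P p) = (univ.erase p).image P := by
    intro p
    rw [Finset.image_erase hP]
  simp only [h2] at h
  have h3 : ∀ p : ι, ∑ z ∈ (univ.erase p).image P,
      g (P p - z) * (w p * Function.extend P w 0 z) =
      ∑ q ∈ univ.erase p, g (P p - P q) * (w p * w q) := by
    intro p
    rw [sum_image hP.injOn]
    exact sum_congr rfl fun q _ => by rw [hP.extend_apply]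
  simp only [h3] at h
  exact h

theorem t_PD : S_PD := by
  intro g hg H n x c
  classical
  -- the estimate with `m + 1` copies
  have key : ∀ m : ℕ, 0 ≤ ∑ i, ∑ j, c i * c j * g (x i - x j) +
      (1 - g 0) * (∑ i, c i ^ 2) * (1 / ((m : ℝ) + 1)) := by
    intro m
    have hm : (0 : ℝ) < (m : ℝ) + 1 := by positivity
    set e : Fin n × Fin (m + 1) → ℝ := fun p => ((Fintype.equivFin (Fin n × Fin (m + 1)) p : ℕ) : ℝ)
      with he
    have hei : Function.Injective e := by
      intro p q h
      have h1 : ((Fintype.equivFin (Fin n × Fin (m + 1)) p : ℕ) : ℝ) =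
        ((Fintype.equivFin (Fin n × Fin (m + 1)) q : ℕ) : ℝ) := h
      have h2 : (Fintype.equivFin (Fin n × Fin (m + 1)) p : ℕ) =
        (Fintype.equivFin (Fin n × Fin (m + 1)) q : ℕ) := by exact_mod_cast h1
      exact (Fintype.equivFin _).injective (Fin.ext h2)
    set P : ℝ → Fin n × Fin (m + 1) → ℝ := fun η p => x p.1 + η * e p with hP
    set w : Fin n × Fin (m + 1) → ℝ := fun p => c p.1 / ((m : ℝ) + 1) with hw
    have hinj : ∀ᶠ η in 𝓝[>] (0 : ℝ), Function.Injective (P η) := by
      have hpair : ∀ p q : Fin n × Fin (m + 1), p ≠ q → ∀ᶠ η in 𝓝[>] (0 : ℝ), P η p ≠ P η q := by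
        intro p q hpq
        by_cases hx : x p.1 = x q.1
        · filter_upwards [self_mem_nhdsWithin] with η hη h
          have h1 : x p.1 + η * e p = x q.1 + η * e q := h
          rw [hx] at h1
          have h2 : η * e p = η * e q := by linarith
          exact hpq (hei (mul_left_cancel₀ (ne_of_gt hη) h2))
        · have hcont : Continuous fun η : ℝ => P η p - P η q := by
            simp only [hP]
            fun_prop
          have h0 : (fun η : ℝ => P η p - P η q) 0 ≠ 0 := by
            simp only [hP, zero_mul, add_zero]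
            exact sub_ne_zero.2 hx
          have h1 := hcont.continuousAt.eventually_ne h0
          filter_upwards [nhdsWithin_le_nhds h1] with η hη h
          exact hη (sub_eq_zero.2 h)
      have hall : ∀ᶠ η in 𝓝[>] (0 : ℝ), ∀ p q : Fin n × Fin (m + 1), p ≠ q → P η p ≠ P η q := by
        rw [eventually_all]
        intro p
        rw [eventually_all]
        intro q
        rw [eventually_imp_distrib_left]
        exact hpair p q
      filter_upwards [hall] with η hη p q hpq
      by_contra hne
      exact hη p q hne hpq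
    -- the limit of the form
    set Φ : ℝ → ℝ := fun η => ∑ p, w p ^ 2 +
      ∑ p, ∑ q ∈ univ.erase p, g (P η p - P η q) * (w p * w q) with hΦ
    have hΦc : Continuous Φ := by
      simp only [hΦ, hP]
      fun_prop
    have hΦ0 : 0 ≤ Φ 0 := by
      have h1 : Tendsto Φ (𝓝[>] 0) (𝓝 (Φ 0)) := hΦc.continuousAt.mono_left nhdsWithin_le_nhds
      apply ge_of_tendsto h1
      filter_upwards [hinj] with η hη
      exact on_family H (P η) hη w
    -- computation
    have e1 : Φ 0 = ∑ i, ∑ j, c i * c j * g (x i - x j) +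
        (1 - g 0) * (∑ i, c i ^ 2) * (1 / ((m : ℝ) + 1)) := by
      have f1 : ∀ p : Fin n × Fin (m + 1), ∑ q ∈ univ.erase p, g (P 0 p - P 0 q) * (w p * w q) =
          ∑ q, g (x p.1 - x q.1) * (w p * w q) - g 0 * (w p * w p) := by
        intro p
        rw [← Finset.add_sum_erase univ _ (mem_univ p), sub_self]
        simp only [hP, zero_mul, add_zero]
        ring
      have f2 : ∀ (F : Fin n → ℝ), ∑ p : Fin n × Fin (m + 1), F p.1 = ((m : ℝ) + 1) * ∑ i, F i := by
        intro F
        rw [Fintype.sum_prod_type]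
        simp only [sum_const, card_univ, Fintype.card_fin, nsmul_eq_mul]
        rw [mul_sum]
        push_cast
        rfl
      simp only [hΦ]
      rw [sum_congr rfl fun p _ => f1 p, sum_sub_distrib]
      have g1 : ∑ p, w p ^ 2 = (∑ i, c i ^ 2) * (1 / ((m : ℝ) + 1)) := by
        have := f2 (fun i => (c i / ((m : ℝ) + 1)) ^ 2)
        simp only [hw]
        rw [this]
        simp only [div_pow]
        rw [← sum_div]
        field_simp
      have g2 : ∑ p, g 0 * (w p * w p) = g 0 * ((∑ i, c i ^ 2) * (1 / ((m : ℝ) + 1))) := by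
        rw [← mul_sum, ← g1]
        congr 1
        exact sum_congr rfl fun p _ => by ring
      have g3 : ∑ p, ∑ q, g (x p.1 - x q.1) * (w p * w q) =
          ∑ i, ∑ j, c i * c j * g (x i - x j) := by
        have h1 : ∀ p : Fin n × Fin (m + 1), ∑ q, g (x p.1 - x q.1) * (w p * w q) =
            (∑ j, c p.1 * c j * g (x p.1 - x j)) / ((m : ℝ) + 1) := by
          intro p
          have := f2 (fun j => g (x p.1 - x j) * (w p * (c j / ((m : ℝ) + 1))))
          simp only [hw] at this ⊢
          rw [this, mul_sum, sum_div]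
          refine sum_congr rfl fun j _ => ?_
          field_simp
        rw [sum_congr rfl fun p _ => h1 p,
          f2 (fun i => (∑ j, c i * c j * g (x i - x j)) / ((m : ℝ) + 1)), ← sum_div]
        field_simp
      rw [g1, g2, g3]
      ring
    rw [← e1]
    exact hΦ0
  have hlim : Tendsto (fun m : ℕ => ∑ i, ∑ j, c i * c j * g (x i - x j) +
      (1 - g 0) * (∑ i, c i ^ 2) * (1 / ((m : ℝ) + 1))) atTop
      (𝓝 (∑ i, ∑ j, c i * c j * g (x i - x j) + (1 - g 0) * (∑ i, c i ^ 2) * 0)) :=
    tendsto_const_nhds.add (tendsto_one_div_add_atTop_nhds_zero_nat.const_mul _)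
  rw [mul_zero, add_zero] at hlim
  exact ge_of_tendsto' hlim key

end Pool.Agent.Y51.SR
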